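import Pool.Agent.Lib.MP_1a91b9_nuT.CT.Pb

/-!
# JOB Pd1: the product of the periods at the infinite places

(`prod_vc`) `perAt (D • W) v = (v u) ^ mult v * perAt W v` from `perR_vc`, `perC_vc` (`map_variableChange`;
`|embedding_of_isReal h u| = v u`, `‖v.embedding u‖ = v u`: `InfinitePlace.norm_embedding_eq`,
`InfinitePlace.norm_embedding_of_isReal`), and `∏ (v u) ^ mult v = |norm u|` (`InfinitePlace.prod_eq_abs_norm`).
-/

set_option autoImplicit false

namespace Pool.Agent.Lib.MP_1a91b9_nuT.CT

variable [CD]

open NumberField WeierstrassCurve Pool.Agent.Lib.MP_1a91b9_nuT.Per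

variable {N : Type*} [Field N]


private theorem Pd1_perAt_vc (W : WeierstrassCurve N) (D : VariableChange N) (v : InfinitePlace N) :
    perAt (D • W) v = v (D.u : N) ^ v.mult * perAt W v := by
  rw [perAt, perAt]
  split_ifs with h
  · rw [← map_variableChange, perR_vc, InfinitePlace.mult, if_pos h, pow_one]
    congr 1
    exact InfinitePlace.norm_embedding_of_isReal h (D.u : N)
  · rw [← map_variableChange, perC_vc, InfinitePlace.mult, if_neg h]
    have h1 : ‖(((D.map v.embedding).u : ℂˣ) : ℂ)‖ = v (D.u : N) :=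
      InfinitePlace.norm_embedding_eq v (D.u : N)
    rw [h1]
    ring

theorem prod_vc [NumberField N] (W : WeierstrassCurve N) (D : VariableChange N) :
    ∏ v : InfinitePlace N, perAt (D • W) v =
      |(Algebra.norm ℚ (D.u : N) : ℝ)| * ∏ v : InfinitePlace N, perAt W v := by
  simp only [Pd1_perAt_vc]
  rw [Finset.prod_mul_distrib, InfinitePlace.prod_eq_abs_norm]
  push_cast
  rfl


end Pool.Agent.Lib.MP_1a91b9_nuT.CT
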