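import Pool.Agent.Lib.MP_1a91b9_nuT.CT.Sb

/-!
# JOB Sl: the restriction of cocycles and the local conditions (see the header of Sb.lean, `res_triv`)
-/

set_option autoImplicit false

namespace Pool.Agent.Lib.MP_1a91b9_nuT.CT

variable [CD]

open WeierstrassCurve Pool.Agent.Lib.MP_1a91b9_nuT.S9
open scoped Classical

theorem res_triv {k k' L L' : Type*} [Field k] [Field k'] [Algebra k k'] [Field L] [Field L']
    [Algebra k L] [Algebra k' L'] [Algebra k L'] [IsScalarTower k k' L'] [Algebra L L']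
    [IsScalarTower k L L'] [CharZero k] [CharZero L]
    {W : WeierstrassCurve k} {W' : WeierstrassCurve k'} {C : VariableChange k'}
    (hC : C • W.baseChange k' = W') (j : AlgebraicClosure k ≃ₐ[k] AlgebraicClosure k')
    (c : Gal k → Pts W (AlgebraicClosure k)) (hc : c ∈ trivOver W L) :
    res hC j c ∈ trivOver W' L' := by
  intro i
  let ik : AlgebraicClosure k' →ₐ[k] AlgebraicClosure L' := i.restrictScalars k
  let jk : AlgebraicClosure k →ₐ[k] AlgebraicClosure k' := (j : _ →ₐ[k] _)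
  let Φ : AlgebraicClosure L →ₐ[L] AlgebraicClosure L' := IsAlgClosed.lift
  let Φk : AlgebraicClosure L →ₐ[k] AlgebraicClosure L' := Φ.restrictScalars k
  let i1 : AlgebraicClosure k →ₐ[k] AlgebraicClosure L := IsAlgClosed.lift
  obtain ⟨ρ, hρ⟩ := exists_comp (Φk.comp i1) (ik.comp jk)
  let i0 : AlgebraicClosure k →ₐ[k] AlgebraicClosure L := i1.comp (ρ : _ →ₐ[k] _)
  have hi : ∀ x, ik (jk x) = Φk (i0 x) := hρ
  have hi' : Φk.comp i0 = ik.comp jk := by
    ext x
    exact (hi x).symm
  obtain ⟨P0, hP0⟩ := hc i0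
  refine ⟨(tr hC (AlgebraicClosure L')).symm (Affine.Point.map Φk P0), ?_⟩
  intro σ τ hστ
  obtain ⟨σ0, hσ0⟩ := exists_comp Φ
    (((σ : AlgebraicClosure L' →ₐ[L'] _).restrictScalars L).comp Φ)
  have h5 : ∀ x, i0 (resG j τ x) = σ0 (i0 x) := by
    intro x
    apply Φk.injective
    change Φk (i0 (resG j τ x)) = Φk (σ0 (i0 x))
    rw [← hi]
    have h6 : jk (resG j τ x) = τ (jk x) := by
      change j (j.symm (τ (j x))) = τ (j x)
      rw [AlgEquiv.apply_symm_apply]
    rw [h6]
    have h7 : ik (τ (jk x)) = σ (ik (jk x)) := hστ (jk x)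
    rw [h7, hi]
    exact hσ0 (i0 x)
  have h6 := hP0 σ0 (resG j τ) h5
  have h7 := congrArg (Affine.Point.map Φk) h6
  rw [Affine.Point.map_map, hi', _root_.map_sub, Affine.Point.map_map] at h7
  apply (tr hC (AlgebraicClosure L')).injective
  rw [_root_.map_sub, tr_map hC i, tr_map hC, AddEquiv.apply_symm_apply]
  unfold res
  rw [AddEquiv.apply_symm_apply, Affine.Point.map_map, Affine.Point.map_map]
  change Affine.Point.map (ik.comp jk) (c (resG j τ)) = _
  rw [h7]
  have h8 : Φk.comp (((σ0 : AlgebraicClosure L →ₐ[L] _)).restrictScalars k) =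
      ((((σ : AlgebraicClosure L' →ₐ[L'] _).restrictScalars k').restrictScalars k)).comp Φk := by
    ext x
    exact (hσ0 x).symm
  rw [h8]

end Pool.Agent.Lib.MP_1a91b9_nuT.CT
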