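import Pool.Agent.Lib.MP_1a91b9_nuT.CT.Defs
import Pool.Agent.Lib.MP_1a91b9_nuT.S9.QA

/-!
# La: minimal models have the largest discriminant

PROOF. This is `S9/QA.lean` (`minModel_disc`, `minChange_unit`) for a general integral `W₀` instead of `E`; copy it.
(`qa_val` there is private, copy it too, and prove more generally: for `r s : O_v`,
`maximalIdeal.valuation (algebraMap r) ≤ maximalIdeal.valuation (algebraMap s) ↔ Valued.v r ≤ Valued.v s`
or use that two valuations of the fraction field with the same valuation ring `O_v` are equivalent: for `s ≠ 0`,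
`val r ≤ val s ↔ val (r / s) ≤ 1 ↔ r / s ∈ O_v`; both valuations have `O_v` as the set of the elements of value `≤ 1`:
`IsDedekindDomain.HeightOneSpectrum.valuation_le_one_iff` / `exists_lift_of_le_one` of the DVR file
`Mathlib/RingTheory/DedekindDomain/...`, `IsDiscreteValuationRing`.)
`min_int`: the class `IsMinimal` contains the integrality (`val_Δ_maximal.1` and
`minModel_isMinimal`, see QB: `(inferInstance : WeierstrassCurve.IsIntegral _ _).integral`).
`min_le`: `W₀ = C⁻¹ • (C • W₀)` is integral, so the maximality property `hm.val_Δ_maximal.2` (applied to `j = C⁻¹`, as in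
`minModel_disc`) gives the inequality of the discriminants (it is stated as `MaximalFor`: from
`f 1 ≤ f j` it yields `f j ≤ f 1`; by totality of the order `f j ≤ f 1` always).
`unit_min`: `1 = v(Δ W₀) ≤ v(Δ (C • W₀)) ≤ 1` (integral), and `Δ (C • W₀) = u⁻¹ ^ 12 Δ W₀`.
-/

set_option autoImplicit false

namespace Pool.Agent.Lib.MP_1a91b9_nuT.CT

variable [CD]

open NumberField IsDedekindDomain WeierstrassCurve Pool.Agent.Lib.MP_1a91b9_nuT.S9
open scoped Classical

variable {N : Type*} [Field N] [NumberField N]

private theorem la_le_one (v : HeightOneSpectrum (𝓞 N)) (x : v.adicCompletion N) :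
    (IsDiscreteValuationRing.maximalIdeal (v.adicCompletionIntegers N)).valuation
      (v.adicCompletion N) x ≤ 1 ↔ Valued.v x ≤ 1 := by
  constructor
  · intro h
    obtain ⟨a, ha⟩ := IsDiscreteValuationRing.exists_lift_of_le_one h
    rw [← ha]
    exact a.2
  · intro h
    exact HeightOneSpectrum.valuation_le_one (K := v.adicCompletion N)
      (IsDiscreteValuationRing.maximalIdeal (v.adicCompletionIntegers N))
      (⟨x, h⟩ : v.adicCompletionIntegers N)

private theorem la_le (v : HeightOneSpectrum (𝓞 N)) (x y : v.adicCompletion N) :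
    (IsDiscreteValuationRing.maximalIdeal (v.adicCompletionIntegers N)).valuation
      (v.adicCompletion N) x ≤
      (IsDiscreteValuationRing.maximalIdeal (v.adicCompletionIntegers N)).valuation
      (v.adicCompletion N) y ↔ Valued.v x ≤ Valued.v y := by
  by_cases hy : y = 0
  · rw [hy, map_zero, map_zero, le_zero_iff, le_zero_iff, Valuation.zero_iff, Valuation.zero_iff]
  · have h1 : 0 < (IsDiscreteValuationRing.maximalIdeal (v.adicCompletionIntegers N)).valuation
        (v.adicCompletion N) y := zero_lt_iff.2 ((Valuation.ne_zero_iff _).2 hy)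
    have h2 : 0 < Valued.v y := zero_lt_iff.2 ((Valuation.ne_zero_iff _).2 hy)
    rw [← div_le_one₀ h1, ← div_le_one₀ h2, ← map_div₀, ← map_div₀]
    exact la_le_one v (x / y)

/-- A minimal equation has integral coefficients. -/
theorem min_int {v : HeightOneSpectrum (𝓞 N)} (M : WeierstrassCurve (v.adicCompletion N))
    (hm : IsMinimal (v.adicCompletionIntegers N) M) :
    ∃ I : WeierstrassCurve (v.adicCompletionIntegers N),
      M = I.baseChange (v.adicCompletion N) :=
  (inferInstance : WeierstrassCurve.IsIntegral (v.adicCompletionIntegers N) M).integral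

/-- The discriminant of a minimal equation is the one of largest value. -/
theorem min_le {v : HeightOneSpectrum (𝓞 N)} (W₀ : WeierstrassCurve (v.adicCompletion N))
    (I : WeierstrassCurve (v.adicCompletionIntegers N))
    (hI : W₀ = I.baseChange (v.adicCompletion N)) (C : VariableChange (v.adicCompletion N))
    (hm : IsMinimal (v.adicCompletionIntegers N) (C • W₀)) :
    Valued.v W₀.Δ ≤ Valued.v (C • W₀).Δ := by
  rw [← la_le]
  have hint : WeierstrassCurve.IsIntegral (v.adicCompletionIntegers N) W₀ := ⟨I, hI⟩
  have hinv : C⁻¹ • (C • W₀) = W₀ := by rw [inv_smul_smul]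
  have hint' : WeierstrassCurve.IsIntegral (v.adicCompletionIntegers N) (C⁻¹ • (C • W₀)) := by
    rw [hinv]
    exact hint
  have hmax := hm.val_Δ_maximal
  have hle : WeierstrassCurve.valuation_Δ_aux (v.adicCompletionIntegers N) (C⁻¹ • (C • W₀)) ≤
      WeierstrassCurve.valuation_Δ_aux (v.adicCompletionIntegers N)
        ((1 : WeierstrassCurve.VariableChange (v.adicCompletion N)) • (C • W₀)) := by
    rcases le_total (WeierstrassCurve.valuation_Δ_aux (v.adicCompletionIntegers N)
        ((1 : WeierstrassCurve.VariableChange (v.adicCompletion N)) • (C • W₀)))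
      (WeierstrassCurve.valuation_Δ_aux (v.adicCompletionIntegers N) (C⁻¹ • (C • W₀))) with h | h
    · exact hmax.2 (j := C⁻¹) hint' h
    · exact h
  rw [hinv, one_smul] at hle
  have hle' : (WeierstrassCurve.valuation_Δ_aux (v.adicCompletionIntegers N) W₀ :
      WithZero (Multiplicative ℤ)) ≤
      (WeierstrassCurve.valuation_Δ_aux (v.adicCompletionIntegers N) (C • W₀) : _) := hle
  rwa [WeierstrassCurve.valuation_Δ_aux_eq_of_isIntegral,
    WeierstrassCurve.valuation_Δ_aux_eq_of_isIntegral] at hle'

/-- The case of a unit discriminant. -/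
theorem unit_min {v : HeightOneSpectrum (𝓞 N)} (W₀ : WeierstrassCurve (v.adicCompletion N))
    (I : WeierstrassCurve (v.adicCompletionIntegers N))
    (hI : W₀ = I.baseChange (v.adicCompletion N)) (hΔ : Valued.v W₀.Δ = 1)
    (C : VariableChange (v.adicCompletion N))
    (hm : IsMinimal (v.adicCompletionIntegers N) (C • W₀)) :
    Valued.v (C • W₀).Δ = 1 ∧ Valued.v (C.u : v.adicCompletion N) = 1 := by
  have h0 : Valued.v (C • W₀).Δ = 1 := by
    refine le_antisymm ?_ ?_
    · obtain ⟨r, hr⟩ := Δ_integral_of_isIntegral (v.adicCompletionIntegers N) (C • W₀)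
      rw [← hr]
      exact r.2
    · rw [← hΔ]
      exact min_le W₀ I hI C hm
  refine ⟨h0, ?_⟩
  have h1 : (C • W₀).Δ = ((C.u⁻¹ : (v.adicCompletion N)ˣ) : v.adicCompletion N) ^ 12 * W₀.Δ := by
    rw [WeierstrassCurve.variableChange_Δ]
  have h2 := congrArg Valued.v h1
  rw [map_mul, map_pow, hΔ, h0, mul_one] at h2
  have h4 : Valued.v ((C.u⁻¹ : (v.adicCompletion N)ˣ) : v.adicCompletion N) = 1 :=
    (pow_eq_one_iff.mp h2.symm).resolve_right (by norm_num)
  have h5 := congrArg Valued.v C.u.mul_inv
  rwa [map_mul, h4, mul_one, map_one] at h5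

end Pool.Agent.Lib.MP_1a91b9_nuT.CT
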