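import Pool.Agent.Lib.MP_1a91b9_nuT.CT.Sa
import Pool.Agent.Lib.MP_1a91b9_nuT.S9.MB

/-!
# JOB Sb: the restriction of cocycles to a finite extension

`k' ⊇ k` algebraic, `j : kbar ≃ₐ[k] k'bar`, `resG j σ = j⁻¹ σ j`, `res c σ = e⁻¹ (j (c (j⁻¹ σ j)))`, `e = tr hC k'bar`.
PROOF. (`res_coc`) cocycle identity: `resG j (σ τ) = resG j σ * resG j τ`, `j ∘ (resG j σ) = σ ∘ j` on points (`Affine.Point.map_map`),
and `e` commutes with `σ` (`tr_map`, `e.symm`). Locally constant: `resG j` is continuous for the Krull topologies: it is enough that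
for every finite `M/k` inside `kbar` the elements `σ` fixing the (finite over `k'`) field generated by `j '' M` over `k'` are mapped to elements
fixing `M`; or prove it through `exists_open`: `c` is locally constant, so for every `σ₀` there is a finite `M/k` in `kbar` such that
`c (resG j σ₀ * τ) = c (resG j σ₀)` for the `τ` fixing `M`... (`c (ρ τ) = c ρ + ρ (c τ)` and `c τ = 0` by `exists_open`, S9/MB.lean), and
the set of the `σ₀ σ'` with `σ'` fixing `IntermediateField.adjoin k' (j '' M)` (finite-dimensional: `M` is finitely generated,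
take a finite spanning set of `M`) is open (`mb1_lc` in S9/MB.lean is the model).
(`res_triv`) Let `i : k'bar →ₐ[k'] L'bar`. `Φ : Lbar →+* L'bar` over `L → L'` exists (`L'bar` is algebraically closed, `Lbar/L` algebraic:
`IsAlgClosed.lift` for the `L`-algebra `L'bar`). `i ∘ j` and `Φ ∘ i₁` (`i₁ : kbar →ₐ[k] Lbar` any embedding, `IsAlgClosed.lift`) are two
`k`-embeddings of `kbar` in `L'bar`: by `exists_comp` (S9/KB.lean) there is `ρ : kbar ≃ₐ[k] kbar` with
`i (j x) = Φ (i₁ (ρ x))`; put `i₀ = i₁ ∘ ρ`. `hc i₀` gives `P₀ : Pts W Lbar`. Put `P = e_{L'bar}⁻¹ (Φ P₀)`. For `σ' ∈ Gal L'`, `τ' ∈ Gal k'` with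
`i (τ' x) = σ' (i x)`: `σ'` restricts along `Φ` to some `σ₀ ∈ Gal L` with `Φ (σ₀ y) = σ' (Φ y)` (`exists_comp` for the two
`L`-embeddings `Φ` and `σ' ∘ Φ` of `Lbar` in `L'bar`), and `i₀ (resG j τ' x) = σ₀ (i₀ x)` (apply the injective `Φ`). So
`i₀ (c (resG j τ')) = σ₀ P₀ - P₀`; apply `Φ`, and `e⁻¹` (`tr_map` for `i` and for `σ'`).
(`cob_res`) if `res c = ∂ P'` with `P' : Pts W' k'bar`, put `P = j⁻¹ (e P')`. For `τ : Gal k` fixing `j⁻¹ (k')`, `σ = j τ j⁻¹` is in `Gal k'`,
`resG j σ = τ`.
-/

set_option autoImplicit false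

namespace Pool.Agent.Lib.MP_1a91b9_nuT.CT

variable [CD]

open WeierstrassCurve Pool.Agent.Lib.MP_1a91b9_nuT.S9
open scoped Classical

section
variable {k k' : Type*} [Field k] [Field k'] [Algebra k k']

/-- The restriction of automorphisms. -/
noncomputable def resG (j : AlgebraicClosure k ≃ₐ[k] AlgebraicClosure k') (σ : Gal k') : Gal k :=
  (j.trans (σ.restrictScalars k)).trans j.symm

variable {W : WeierstrassCurve k} {W' : WeierstrassCurve k'} {C : VariableChange k'}

/-- The restriction of functions on the Galois group, transported to `W'`. -/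
noncomputable def res (hC : C • W.baseChange k' = W')
    (j : AlgebraicClosure k ≃ₐ[k] AlgebraicClosure k')
    (c : Gal k → Pts W (AlgebraicClosure k)) : Gal k' → Pts W' (AlgebraicClosure k') :=
  fun σ => (tr hC (AlgebraicClosure k')).symm
    (Affine.Point.map (j : AlgebraicClosure k →ₐ[k] AlgebraicClosure k') (c (resG j σ)))

theorem resG_apply (j : AlgebraicClosure k ≃ₐ[k] AlgebraicClosure k') (σ : Gal k')
    (x : AlgebraicClosure k) : resG j σ x = j.symm (σ (j x)) := rfl

theorem resG_mul (j : AlgebraicClosure k ≃ₐ[k] AlgebraicClosure k') (σ τ : Gal k') :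
    resG j (σ * τ) = resG j σ * resG j τ := by
  ext x
  change j.symm (σ (τ (j x))) = j.symm (σ (j (j.symm (τ (j x)))))
  rw [j.apply_symm_apply]

theorem resG_one (j : AlgebraicClosure k ≃ₐ[k] AlgebraicClosure k') :
    resG j (1 : Gal k') = 1 := by
  ext x
  change j.symm (j x) = x
  rw [j.symm_apply_apply]

/-- The key identity. -/
theorem sb_key (hC : C • W.baseChange k' = W')
    (j : AlgebraicClosure k ≃ₐ[k] AlgebraicClosure k') (σ : Gal k')
    (Q : Pts W (AlgebraicClosure k)) :
    (tr hC (AlgebraicClosure k')).symm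
      (Affine.Point.map (j : AlgebraicClosure k →ₐ[k] AlgebraicClosure k')
        (Affine.Point.map ((resG j σ : Gal k) : AlgebraicClosure k →ₐ[k] AlgebraicClosure k) Q)) =
    Affine.Point.map (σ : AlgebraicClosure k' →ₐ[k'] AlgebraicClosure k')
      ((tr hC (AlgebraicClosure k')).symm
        (Affine.Point.map (j : AlgebraicClosure k →ₐ[k] AlgebraicClosure k') Q)) := by
  apply (tr hC (AlgebraicClosure k')).injective
  rw [AddEquiv.apply_symm_apply, tr_map, AddEquiv.apply_symm_apply, Affine.Point.map_map,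
    Affine.Point.map_map]
  congr 2
  ext x
  change j (j.symm (σ (j x))) = σ (j x)
  rw [j.apply_symm_apply]

theorem res_nsmul (hC : C • W.baseChange k' = W')
    (j : AlgebraicClosure k ≃ₐ[k] AlgebraicClosure k')
    (c : Gal k → Pts W (AlgebraicClosure k)) (n : ℕ) : res hC j (n • c) = n • res hC j c := by
  funext σ
  change (tr hC (AlgebraicClosure k')).symm
    (Affine.Point.map (j : AlgebraicClosure k →ₐ[k] AlgebraicClosure k') (n • c (resG j σ))) =
    n • (tr hC (AlgebraicClosure k')).symm
      (Affine.Point.map (j : AlgebraicClosure k →ₐ[k] AlgebraicClosure k') (c (resG j σ)))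
  rw [_root_.map_nsmul, _root_.map_nsmul]

theorem res_cob (hC : C • W.baseChange k' = W')
    (j : AlgebraicClosure k ≃ₐ[k] AlgebraicClosure k')
    (c : Gal k → Pts W (AlgebraicClosure k)) (hc : c ∈ cob W) : res hC j c ∈ cob W' := by
  obtain ⟨P, hP⟩ := hc
  refine ⟨(tr hC (AlgebraicClosure k')).symm
    (Affine.Point.map (j : AlgebraicClosure k →ₐ[k] AlgebraicClosure k') P), fun σ => ?_⟩
  rw [← sb_key hC j σ P]
  unfold res
  rw [hP, _root_.map_sub, _root_.map_sub]

theorem resG_continuous [Algebra.IsAlgebraic k k']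
    (j : AlgebraicClosure k ≃ₐ[k] AlgebraicClosure k') :
    Continuous (resG j : Gal k' → Gal k) := by
  let f : Gal k' →* Gal k :=
    { toFun := resG j
      map_one' := resG_one j
      map_mul' := resG_mul j }
  refine continuous_of_continuousAt_one f ?_
  rw [ContinuousAt, map_one, Filter.tendsto_def]
  intro s hs
  rw [krullTopology_mem_nhds_one_iff] at hs ⊢
  obtain ⟨M, hM, hsub⟩ := hs
  let b := Module.finBasis k M
  let S : Set (AlgebraicClosure k') := Set.range fun i => j (b i : AlgebraicClosure k)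
  have hS : S.Finite := Set.finite_range _
  refine ⟨IntermediateField.adjoin k' S, ?_, fun σ hσ => ?_⟩
  · have hfS : Finite S := hS
    exact IntermediateField.finiteDimensional_adjoin fun z _ =>
      (Algebra.IsAlgebraic.isAlgebraic z).isIntegral
  · apply hsub
    rw [SetLike.mem_coe, IntermediateField.mem_fixingSubgroup_iff] at hσ ⊢
    intro x hx
    change j.symm (σ (j x)) = x
    have hb : ∀ i, σ (j (b i : AlgebraicClosure k)) = j (b i : AlgebraicClosure k) := fun i =>
      hσ _ (IntermediateField.subset_adjoin k' S ⟨i, rfl⟩)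
    have hxs : x = ∑ i, b.repr ⟨x, hx⟩ i • (b i : AlgebraicClosure k) := by
      have h := congrArg (algebraMap M (AlgebraicClosure k)) (b.sum_repr ⟨x, hx⟩)
      rw [_root_.map_sum] at h
      exact h.symm
    have h1 : σ (j x) = j x := by
      rw [hxs, _root_.map_sum, _root_.map_sum]
      refine Finset.sum_congr rfl fun i _ => ?_
      rw [Algebra.smul_def, _root_.map_mul, _root_.map_mul, hb, j.commutes,
        IsScalarTower.algebraMap_apply k k' (AlgebraicClosure k'), σ.commutes]
    rw [h1, j.symm_apply_apply]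

theorem res_coc [CharZero k] [CharZero k'] [Algebra.IsAlgebraic k k']
    (hC : C • W.baseChange k' = W') (j : AlgebraicClosure k ≃ₐ[k] AlgebraicClosure k')
    (c : Gal k → Pts W (AlgebraicClosure k)) (hc : c ∈ coc W) : res hC j c ∈ coc W' := by
  refine ⟨?_, fun σ τ => ?_⟩
  · have h1 : IsLocallyConstant (c ∘ (resG j : Gal k' → Gal k)) :=
      hc.1.comp_continuous (resG_continuous j)
    exact h1.comp fun Q => (tr hC (AlgebraicClosure k')).symm
      (Affine.Point.map (j : AlgebraicClosure k →ₐ[k] AlgebraicClosure k') Q)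
  · unfold res
    rw [resG_mul, hc.2, _root_.map_add, _root_.map_add, sb_key]

theorem cob_res (hC : C • W.baseChange k' = W')
    (j : AlgebraicClosure k ≃ₐ[k] AlgebraicClosure k')
    (c : Gal k → Pts W (AlgebraicClosure k)) (hc : res hC j c ∈ cob W') :
    ∃ P : Pts W (AlgebraicClosure k), ∀ τ : Gal k,
      (∀ z : k', τ (j.symm (algebraMap k' _ z)) = j.symm (algebraMap k' _ z)) →
      c τ = Affine.Point.map (τ : AlgebraicClosure k →ₐ[k] _) P - P := by
  obtain ⟨P', hP'⟩ := hc
  refine ⟨Affine.Point.map (j.symm : AlgebraicClosure k' →ₐ[k] AlgebraicClosure k)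
    (tr hC (AlgebraicClosure k') P'), fun τ hτ => ?_⟩
  let σ : Gal k' := AlgEquiv.ofRingEquiv
    (f := ((j.symm.trans τ).trans j).toRingEquiv) fun z => by
      change j (τ (j.symm (algebraMap k' _ z))) = _
      rw [hτ z, j.apply_symm_apply]
  have hσ : ∀ x, σ x = j (τ (j.symm x)) := fun x => rfl
  have hres : resG j σ = τ := by
    ext x
    rw [resG_apply, hσ, j.symm_apply_apply, j.symm_apply_apply]
  have h1 := congrArg (tr hC (AlgebraicClosure k')) (hP' σ)
  unfold res at h1
  rw [hres, AddEquiv.apply_symm_apply, _root_.map_sub, tr_map] at h1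
  have h2 := congrArg (Affine.Point.map
    (j.symm : AlgebraicClosure k' →ₐ[k] AlgebraicClosure k)) h1
  rw [Affine.Point.map_map, _root_.map_sub, Affine.Point.map_map] at h2
  have h3 : (j.symm : AlgebraicClosure k' →ₐ[k] AlgebraicClosure k).comp
      (j : AlgebraicClosure k →ₐ[k] AlgebraicClosure k') = AlgHom.id k _ := by
    ext x
    exact j.symm_apply_apply x
  have h4 : ∀ Q : Pts W (AlgebraicClosure k),
      Affine.Point.map (AlgHom.id k (AlgebraicClosure k)) Q = Q := by
    intro Q
    rcases Q with _ | ⟨x, y, h⟩ <;> rfl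
  rw [h3, h4] at h2
  rw [h2, Affine.Point.map_map]
  congr 3
  ext x
  change j.symm (σ x) = τ (j.symm x)
  rw [hσ, j.symm_apply_apply]

end

end Pool.Agent.Lib.MP_1a91b9_nuT.CT
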