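import Pool.Agent.Lib.MP_1a91b9_nuT.S9.Defs

/-!
# The subgroup of points with nonsingular reduction
-/

set_option autoImplicit false

namespace Pool.Agent.Lib.MP_1a91b9_nuT.CT

variable [CD]

open NumberField IsDedekindDomain WeierstrassCurve Pool.Agent.Lib.MP_1a91b9_nuT.S9
open scoped Classical

variable {N : Type*} [Field N] [NumberField N]

/-- The subgroup generated by the points of `M` whose reduction is non-singular (see
`S9.nonsing`). -/
noncomputable def ns {v : HeightOneSpectrum (𝓞 N)} (M : WeierstrassCurve (v.adicCompletion N)) :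
    AddSubgroup M.toAffine.Point :=
  AddSubgroup.closure {P | P = 0 ∨ ∃ (x y : v.adicCompletion N)
    (h : M.toAffine.Nonsingular x y), P = Affine.Point.some x y h ∧
      (1 < Valued.v x ∨ Valued.v (2 * y + M.a₁ * x + M.a₃) = 1 ∨
        Valued.v (3 * x ^ 2 + 2 * M.a₂ * x + M.a₄ - M.a₁ * y) = 1)}

theorem nonsing_eq (W : WeierstrassCurve N) (v : HeightOneSpectrum (𝓞 N)) :
    nonsing W v = ns (minModel W v) := rfl

end Pool.Agent.Lib.MP_1a91b9_nuT.CT
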