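import Pool.Agent.Lib.MP_1a91b9_nuT.CT.Defs
import Pool.Agent.Lib.MP_1a91b9_nuT.S9.QA

/-!
# JOB Lf: the minimal model of a twist

(`minModel_tw`) `minModel W v = minChange W v • W_v` and `D_v • W_v = tw δ` over `N_v` (`WeierstrassCurve.map_variableChange`,
`tw_map`), so `minModel W v = (minChange W v * D_v⁻¹) • tw (δ : N_v)`, and the factor `u` of `minChange W v * D_v⁻¹` is the quotient
(`VariableChange.mul_def`, `inv_def`).
(`adm_ne_zero`) `IsCoprime 0 2` says that `2` is a unit of `𝓞 N`; its norm `2 ^ n`, `n ≥ 1`, is not a unit of `ℤ`.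
-/

set_option autoImplicit false

namespace Pool.Agent.Lib.MP_1a91b9_nuT.CT

variable [CD]

open NumberField IsDedekindDomain WeierstrassCurve WithZero Pool.Agent.Lib.MP_1a91b9_nuT.S9
open scoped Classical

variable {N : Type*} [Field N] [NumberField N]

/-- The scaling factor of the change from `tw δ` to the minimal model of `W` at `v`. -/
noncomputable def uu (W : WeierstrassCurve N) (D : VariableChange N) (v : HeightOneSpectrum (𝓞 N)) :
    v.adicCompletion N :=
  ((minChange W v).u : v.adicCompletion N) / algebraMap N (v.adicCompletion N) (D.u : N)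


end Pool.Agent.Lib.MP_1a91b9_nuT.CT
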