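import Pool.Agent.Lib.MP_1a91b9_nuT.P.Defs

/-!
# JOB Pb: the periods and changes of variables

`C • W`: the substitution `x = u² x' + r`, `y = u³ y' + u² s x' + t` (`x', y'` on `C • W`).
PROOF. For fixed `x'` and `x = u² x' + r`, `y' ↦ u³ y' + u² s x' + t` is a bijection from the `y'` with
`(C • W).Equation x' y'` to the `y` with `W.Equation x y` (`vc_equation` or similar in `Pool/Agent/Lib/MP_1a91b9_nt/VarChange.lean`; or by
hand: `equation_iff`, `variableChange_a₁ ..`, `field_simp`, `linear_combination u⁶ *`), and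
`2 y + a₁ x + a₃ = u³ (2 y' + a₁' x' + a₃')`. So (`Equiv.tsum_eq`, `tsum_mul_left`) the integrand of `perR (C • W)` at `x'` is
`|u|³` times the integrand of `perR W` at `u² x' + r`; `integral_comp_mul_left`, `integral_add_right_eq_self` give
`perR (C • W) = |u|³ |u²|⁻¹ perR W`. Over `ℂ`: `‖u‖⁶` and the Jacobian `‖u²‖²` (for `∫ f (a z) = (‖a‖²)⁻¹ ∫ f`:
`MeasureTheory.Measure.integral_comp_smul`-like lemma is real; use
`(LinearMap.mulLeft ℝ a)`/`ContinuousLinearEquiv` and `MeasureTheory.Measure.map_linearMap_addHaar_eq_smul_addHaar` or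
`integral_image_eq_integral_abs_det_fderiv_smul`; the determinant of `z ↦ a z` is `‖a‖²`, see `det_XXd` in `P/Area.lean`).
-/

set_option autoImplicit false

namespace Pool.Agent.Lib.MP_1a91b9_nuT.CT

variable [CD]

open MeasureTheory WeierstrassCurve Pool.Agent.Lib.MP_1a91b9_nuT.Per

section

variable {k : Type*} [Field k]

private theorem pb_eq (W : WeierstrassCurve k) (C : VariableChange k) (x y : k) :
    (C • W).toAffine.Equation x y ↔ W.toAffine.Equation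
      ((C.u : k) ^ 2 * x + C.r) ((C.u : k) ^ 3 * y + ((C.u : k) ^ 2 * C.s * x + C.t)) := by
  have hu : (C.u : k) ≠ 0 := C.u.ne_zero
  have hui : ((C.u⁻¹ : kˣ) : k) = (C.u : k)⁻¹ := by simp
  have e1 : y ^ 2 + (C • W).a₁ * x * y + (C • W).a₃ * y
      - (x ^ 3 + (C • W).a₂ * x ^ 2 + (C • W).a₄ * x + (C • W).a₆)
      = (C.u : k)⁻¹ ^ 6 * (((C.u : k) ^ 3 * y + ((C.u : k) ^ 2 * C.s * x + C.t)) ^ 2 +
        W.a₁ * ((C.u : k) ^ 2 * x + C.r) * ((C.u : k) ^ 3 * y + ((C.u : k) ^ 2 * C.s * x + C.t)) +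
        W.a₃ * ((C.u : k) ^ 3 * y + ((C.u : k) ^ 2 * C.s * x + C.t)) -
        (((C.u : k) ^ 2 * x + C.r) ^ 3 + W.a₂ * ((C.u : k) ^ 2 * x + C.r) ^ 2 +
          W.a₄ * ((C.u : k) ^ 2 * x + C.r) + W.a₆)) := by
    rw [variableChange_a₁, variableChange_a₂, variableChange_a₃, variableChange_a₄,
      variableChange_a₆, hui]
    field_simp
    ring
  have hu' : (C.u : k)⁻¹ ≠ 0 := inv_ne_zero hu
  rw [Affine.equation_iff', Affine.equation_iff', e1, mul_eq_zero]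
  exact ⟨fun h => h.resolve_left (pow_ne_zero 6 hu'), Or.inr⟩

private theorem pb_den (W : WeierstrassCurve k) (C : VariableChange k) (x y : k) :
    2 * ((C.u : k) ^ 3 * y + ((C.u : k) ^ 2 * C.s * x + C.t)) +
      W.a₁ * ((C.u : k) ^ 2 * x + C.r) + W.a₃ =
      (C.u : k) ^ 3 * (2 * y + (C • W).a₁ * x + (C • W).a₃) := by
  have hu : (C.u : k) ≠ 0 := C.u.ne_zero
  have hui : ((C.u⁻¹ : kˣ) : k) = (C.u : k)⁻¹ := by simp
  rw [variableChange_a₁, variableChange_a₃, hui]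
  field_simp
  ring

private noncomputable def pbE (W : WeierstrassCurve k) (C : VariableChange k) (x : k) :
    {y : k // (C • W).toAffine.Equation x y} ≃
      {y : k // W.toAffine.Equation ((C.u : k) ^ 2 * x + C.r) y} :=
  ((Equiv.mulLeft₀ ((C.u : k) ^ 3) (pow_ne_zero 3 C.u.ne_zero)).trans
    (Equiv.addRight ((C.u : k) ^ 2 * C.s * x + C.t))).subtypeEquiv fun y => pb_eq W C x y

private theorem pbE_apply (W : WeierstrassCurve k) (C : VariableChange k) (x : k)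
    (y : {y : k // (C • W).toAffine.Equation x y}) :
    ((pbE W C x y : {y : k // W.toAffine.Equation ((C.u : k) ^ 2 * x + C.r) y}) : k) =
      (C.u : k) ^ 3 * (y : k) + ((C.u : k) ^ 2 * C.s * x + C.t) := rfl

end

private theorem pb_int (g : ℂ → ℝ) (a : ℂ) (ha : a ≠ 0) :
    ∫ x : ℂ, g (a * x) = (‖a‖ ^ 2)⁻¹ * ∫ x : ℂ, g x := by
  have hn : ‖a‖ ≠ 0 := norm_ne_zero_iff.2 ha
  have hmem : a / (‖a‖ : ℂ) ∈ Submonoid.unitSphere ℂ := by
    refine mem_sphere_zero_iff_norm.2 ?_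
    rw [norm_div, Complex.norm_real, norm_norm, div_self hn]
  obtain ⟨ω, hω⟩ : ∃ ω : Circle, (ω : ℂ) = a / (‖a‖ : ℂ) := ⟨⟨_, hmem⟩, rfl⟩
  have h1 : ∀ x : ℂ, g (a * x) = (fun z => g (‖a‖ • z)) (rotation ω x) := by
    intro x
    simp only [rotation_apply, hω]
    congr 1
    have hn' : (‖a‖ : ℂ) ≠ 0 := Complex.ofReal_ne_zero.2 hn
    rw [Complex.real_smul]
    field_simp
  have h2 : ∀ f : ℂ → ℝ, ∫ x : ℂ, f (rotation ω x) = ∫ x : ℂ, f x := by
    intro f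
    have h := (rotation ω).measurePreserving
    have h3 := h.integral_comp (rotation ω).toHomeomorph.measurableEmbedding f
    exact h3
  simp_rw [h1]
  rw [h2 (fun z => g (‖a‖ • z)), Measure.integral_comp_smul, Complex.finrank_real_complex, smul_eq_mul,
    abs_of_nonneg (by positivity)]

theorem perR_vc (W : WeierstrassCurve ℝ) (C : VariableChange ℝ) :
    perR (C • W) = |(C.u : ℝ)| * perR W := by
  have hu : (C.u : ℝ) ≠ 0 := C.u.ne_zero
  have h1 : ∀ x : ℝ, (∑' y : {y : ℝ // (C • W).toAffine.Equation x y},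
      |2 * (y : ℝ) + (C • W).a₁ * x + (C • W).a₃|⁻¹) =
      |(C.u : ℝ)| ^ 3 * (fun z => ∑' y : {y : ℝ // W.toAffine.Equation (z + C.r) y},
        |2 * (y : ℝ) + W.a₁ * (z + C.r) + W.a₃|⁻¹) ((C.u : ℝ) ^ 2 * x) := by
    intro x
    simp only
    rw [← (pbE W C x).tsum_eq, ← tsum_mul_left]
    refine tsum_congr fun y => ?_
    rw [pbE_apply, pb_den, abs_mul, abs_pow, mul_inv, ← mul_assoc, mul_inv_cancel₀, one_mul]
    exact pow_ne_zero 3 (abs_ne_zero.2 hu)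
  rw [perR]
  simp_rw [h1]
  rw [integral_const_mul, Measure.integral_comp_mul_left
    (fun z => ∑' y : {y : ℝ // W.toAffine.Equation (z + C.r) y},
        |2 * (y : ℝ) + W.a₁ * (z + C.r) + W.a₃|⁻¹), integral_add_right_eq_self
    (fun z => ∑' y : {y : ℝ // W.toAffine.Equation z y}, |2 * (y : ℝ) + W.a₁ * z + W.a₃|⁻¹)]
  rw [smul_eq_mul, abs_inv, abs_pow, ← mul_assoc, perR]
  congr 1
  field_simp

theorem perC_vc (W : WeierstrassCurve ℂ) (C : VariableChange ℂ) :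
    perC (C • W) = ‖(C.u : ℂ)‖ ^ 2 * perC W := by
  have hu : (C.u : ℂ) ≠ 0 := C.u.ne_zero
  have h1 : ∀ x : ℂ, (∑' y : {y : ℂ // (C • W).toAffine.Equation x y},
      (‖2 * (y : ℂ) + (C • W).a₁ * x + (C • W).a₃‖ ^ 2)⁻¹) =
      ‖(C.u : ℂ)‖ ^ 6 * (fun z => ∑' y : {y : ℂ // W.toAffine.Equation (z + C.r) y},
        (‖2 * (y : ℂ) + W.a₁ * (z + C.r) + W.a₃‖ ^ 2)⁻¹) ((C.u : ℂ) ^ 2 * x) := by
    intro x
    simp only
    rw [← (pbE W C x).tsum_eq, ← tsum_mul_left]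
    refine tsum_congr fun y => ?_
    rw [pbE_apply, pb_den, norm_mul, norm_pow, mul_pow, mul_inv, ← mul_assoc, ← pow_mul,
      mul_inv_cancel₀, one_mul]
    exact pow_ne_zero 6 (norm_ne_zero_iff.2 hu)
  rw [perC]
  simp_rw [h1]
  rw [integral_const_mul, pb_int
    (fun z => ∑' y : {y : ℂ // W.toAffine.Equation (z + C.r) y},
        (‖2 * (y : ℂ) + W.a₁ * (z + C.r) + W.a₃‖ ^ 2)⁻¹) _ (pow_ne_zero 2 hu),
    integral_add_right_eq_self
    (fun z => ∑' y : {y : ℂ // W.toAffine.Equation z y}, (‖2 * (y : ℂ) + W.a₁ * z + W.a₃‖ ^ 2)⁻¹)]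
  rw [norm_pow, ← mul_assoc, perC]
  congr 1
  field_simp

end Pool.Agent.Lib.MP_1a91b9_nuT.CT
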